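import Mathlib
import Pool.Agent.U663.AB.SzY

namespace Pool.Agent.Results.MP_d8bd92_nt.ExceptionsAboveThree

open Finset

/-- the product of the distinct primes dividing `Δ(W)` (the conductor if `gcd(c₄, Δ) = 1`) -/
def conductor (W : WeierstrassCurve ℤ) : ℕ := ∏ p ∈ W.Δ.natAbs.primeFactors, p

/-- all 2-torsion points are rational: `4x³ + b₂x² + 2b₄x + b₆` splits over `ℚ` -/
def FullTwoTorsion (W : WeierstrassCurve ℤ) : Prop :=
  ∃ r₁ r₂ r₃ : ℚ, ∀ x : ℚ,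
    4 * x ^ 3 + W.b₂ * x ^ 2 + 2 * W.b₄ * x + W.b₆ = 4 * (x - r₁) * (x - r₂) * (x - r₃)

/-- the invariants `(c₄, c₆)` of the integral Weierstrass curves with `Δ ≠ 0` and `gcd(c₄, Δ) = 1`
(the minimal models of the semistable elliptic curves over `ℚ`) having full rational 2-torsion,
naive height `max (|c₄|³, c₆²) ≤ X⁶` and `c₀ N ^ κ < |Δ|` -/
def Exceptional (κ c₀ : ℝ) (X : ℕ) : Set (ℤ × ℤ) :=
  {q | ∃ W : WeierstrassCurve ℤ, W.Δ ≠ 0 ∧ IsCoprime W.c₄ W.Δ ∧ FullTwoTorsion W ∧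
    q = (W.c₄, W.c₆) ∧ |W.c₄| ^ 3 ≤ (X : ℤ) ^ 6 ∧ W.c₆ ^ 2 ≤ (X : ℤ) ^ 6 ∧
    c₀ * (conductor W : ℝ) ^ κ < |(W.Δ : ℝ)|}

/-- the exponent as a function of `l = 6 / κ`, continuous and piecewise linear -/
noncomputable def F (l : ℝ) : ℝ :=
  if l ≤ 1 / 2 then 4 * l / 7
  else if l ≤ 1 then (52 * l + 4) / 105
  else if l ≤ 13 / 12 then (9 * l - 1) / 15
  else if l ≤ 5 / 4 then (12 * l + 1) / 24
  else if l ≤ 35 / 24 then (36 * l - 5) / 60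
  else if l ≤ 41 / 24 then (8 * l + 1) / 16
  else if l ≤ 2 then (2 * l + 3) / 7
  else l - 1

/-- For all `κ, c₀, ε > 0` there is `C` such that for every `X ≥ 1` at most `C X ^ (F (6 / κ) + ε)`
isomorphism classes of semistable elliptic curves over `ℚ` with full rational 2-torsion and naive
height at most `X⁶` have `c₀ N ^ κ < |Δ|`. The exponent is less than `1` for every `κ > 3`. For
`κ = 6` it is `8 / 15`. -/
theorem result :
    (∀ κ : ℝ, 3 < κ → F (6 / κ) < 1) ∧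
    ∀ κ c₀ ε : ℝ, 0 < κ → 0 < c₀ → 0 < ε →
      ∃ C : ℝ, ∀ X : ℕ, 1 ≤ X →
        (Exceptional κ c₀ X).Finite ∧
        ((Exceptional κ c₀ X).ncard : ℝ) ≤ C * (X : ℝ) ^ (F (6 / κ) + ε) := by
  refine ⟨fun κ h => Pool.Agent.U663.AB.Fy_lt _ ?_, fun κ c₀ ε hκ hc₀ hε => ?_⟩
  · rw [div_lt_iff₀ (by linarith)]
    linarith
  · obtain ⟨C, -, h⟩ := Pool.Agent.U663.AB.semiFy κ c₀ ε hκ hc₀ hε
    exact ⟨C, h⟩

end Pool.Agent.Results.MP_d8bd92_nt.ExceptionsAboveThree
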