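import Mathlib
import Pool.Agent.U73.LC.All

set_option autoImplicit false

/-!
# Semistable elliptic curves over `ℚ` ordered by their conductor

Let `1 < κ < 5/4`. The semistable elliptic curves over `ℚ` with conductor `N ≤ X` and height
`max (|c₄|³, c₆²) ≤ X ^ κ` are asymptotically `c X ^ (5/6)` in number, with

  `c = (3 + √3) / (5 π²) B(1/6, 1/2) ∏_p (1 + ((p - 1)/(p^(1/6) - 1) - 1)/(p (p + 1)))`,

which does not depend on `κ`; the share of the curves with `Δ > 0` tends to `1/(1 + √3)`; the ratio `|Δ| / N` has a limiting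
law `ν` in this ordering (in total variation, and independent of the sign of `Δ`), with explicit point masses; there are
uniform bounds for the tails, and `|Δ| ≤ N ^ (1 + δ)` for all but `C X ^ (5/6 - η)` of the curves.

The lemmas of the project were proved by helper891, helper312, helper689, helper612, helper109, helper296, helper37,
helper588, helper653, helper774 and helper103 (see `U73/LC/All.lean`), and those of the law by height by the helpers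
named in `U73/LS/All.lean`.
-/

namespace Pool.Agent.Results.MP_d8bd92_nt.SemistableByConductor

open Filter Topology

/-- `(c, d)` are the invariants `(c₄, c₆)` of a semistable elliptic curve over `ℚ`: of an integral Weierstrass equation
whose discriminant `Δ` is nonzero and prime to `c₄` (so that it is a global minimal model) -/
def Semistable (c d : ℤ) : Prop :=
  ∃ W : WeierstrassCurve ℤ, W.Δ ≠ 0 ∧ IsCoprime W.c₄ W.Δ ∧ W.c₄ = c ∧ W.c₆ = d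

/-- the discriminant `Δ = (c₄³ - c₆²) / 1728` -/
def Disc (c d : ℤ) : ℤ := (c ^ 3 - d ^ 2) / 1728

/-- the conductor `N` of a semistable curve: the product of the primes dividing `Δ` -/
def Cond (c d : ℤ) : ℕ := ∏ p ∈ (Disc c d).natAbs.primeFactors, p

/-- the ratio `|Δ| / N` -/
def ratio (c d : ℤ) : ℕ := (Disc c d).natAbs / Cond c d

/-- the semistable curves with conductor at most `X` and height `max (|c₄|³, c₆²)` at most `X ^ κ` -/
def Curves (κ X : ℝ) : Set (ℤ × ℤ) :=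
  {q | Semistable q.1 q.2 ∧ (Cond q.1 q.2 : ℝ) ≤ X ∧ |(q.1 : ℝ)| ^ 3 ≤ X ^ κ ∧ (q.2 : ℝ) ^ 2 ≤ X ^ κ}

/-- the number of those with the property `P` -/
noncomputable def num (κ X : ℝ) (P : ℤ → ℤ → Prop) : ℝ :=
  ({q | q ∈ Curves κ X ∧ P q.1 q.2} : Set (ℤ × ℤ)).ncard

/-- `B(1/6, 1/2)` -/
noncomputable def beta : ℝ := Real.Gamma (1 / 6) * Real.Gamma (1 / 2) / Real.Gamma (2 / 3)

/-- the measure of `A` -/
noncomputable def meas (ν : ℕ → ℝ) (A : Set ℕ) : ℝ := ∑' m, A.indicator ν m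

theorem mem_iff {κ X : ℝ} (hX : 0 < X) (a b : ℤ) : (|(a : ℝ)| ^ 3 ≤ X ^ κ ∧ (b : ℝ) ^ 2 ≤ X ^ κ) ↔
    (|(a : ℝ)| ≤ (X ^ (κ / 6)) ^ 2 ∧ |(b : ℝ)| ≤ (X ^ (κ / 6)) ^ 3) := by
  have e1 : X ^ κ = ((X ^ (κ / 6)) ^ 2) ^ 3 := by
    rw [← pow_mul, ← Real.rpow_natCast, ← Real.rpow_mul hX.le]; congr 1; push_cast; ring
  have e2 : X ^ κ = ((X ^ (κ / 6)) ^ 3) ^ 2 := by
    rw [← pow_mul, ← Real.rpow_natCast, ← Real.rpow_mul hX.le]; congr 1; push_cast; ring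
  have hp : 0 < X ^ (κ / 6) := Real.rpow_pos_of_pos hX _
  have h1 : |(a : ℝ)| ^ 3 ≤ X ^ κ ↔ |(a : ℝ)| ≤ (X ^ (κ / 6)) ^ 2 := by
    rw [e1]; exact pow_le_pow_iff_left₀ (abs_nonneg _) (by positivity) (by norm_num)
  have h2 : (b : ℝ) ^ 2 ≤ X ^ κ ↔ |(b : ℝ)| ≤ (X ^ (κ / 6)) ^ 3 := by
    rw [e2, ← sq_abs]; exact pow_le_pow_iff_left₀ (abs_nonneg _) (by positivity) (by norm_num)
  rw [h1, h2]

theorem num_eq {κ X : ℝ} (hX : 0 < X) (P : ℤ → ℤ → Prop) :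
    num κ X P = Pool.Agent.U73.LR.cnt (X ^ (κ / 6)) (fun a b => Pool.Agent.U73.LS.Sm a b ∧
      (Pool.Agent.U73.LS.Nz a b : ℝ) ≤ X ∧ P a b) := by
  classical
  rw [Pool.Agent.U73.LR.cnt_def _ (fun a b => Pool.Agent.U73.LS.Sm a b ∧
      (Pool.Agent.U73.LS.Nz a b : ℝ) ≤ X ∧ P a b), ← Set.ncard_coe_finset]
  unfold num
  congr 2
  ext q
  rw [Finset.mem_coe, Finset.mem_filter, Pool.Agent.U73.LR.mem_box, ← mem_iff hX]
  constructor
  · rintro ⟨⟨h1, h2, h3, h4⟩, h5⟩; exact ⟨⟨h3, h4⟩, h1, h2, h5⟩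
  · rintro ⟨⟨h3, h4⟩, h1, h2, h5⟩; exact ⟨⟨h1, h2, h3, h4⟩, h5⟩

theorem curves_finite {κ X : ℝ} (hX : 0 < X) : (Curves κ X).Finite := by
  refine (Finset.finite_toSet (Pool.Agent.U73.LR.box (X ^ (κ / 6)))).subset ?_
  rintro q ⟨h1, h2, h3, h4⟩
  rw [Finset.mem_coe, Pool.Agent.U73.LR.mem_box, ← mem_iff hX]
  exact ⟨h3, h4⟩

theorem sg_iff {c d : ℤ} (h : Semistable c d) : (Pool.Agent.U73.LC.Sg true c d ↔ 0 < Disc c d) ∧
    (Pool.Agent.U73.LC.Sg false c d ↔ Disc c d < 0) := by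
  have h1 : 1728 * Disc c d = c ^ 3 - d ^ 2 := (Pool.Agent.U73.LS.fact.1 c d h).1
  constructor
  · show d ^ 2 < c ^ 3 ↔ _
    constructor <;> intro h2 <;> omega
  · show c ^ 3 < d ^ 2 ↔ _
    constructor <;> intro h2 <;> omega

theorem num_true {κ X : ℝ} (hX : 0 < X) (A : Set ℕ) :
    num κ X (fun c d => 0 < Disc c d ∧ ratio c d ∈ A) = Pool.Agent.U73.LC.nc κ X true A := by
  rw [num_eq hX]
  unfold Pool.Agent.U73.LC.nc
  apply Pool.Agent.U73.LR.cnt_congr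
  intro a b
  constructor
  · rintro ⟨h1, h2, h3, h4⟩; exact ⟨(sg_iff h1).1.2 h3, h1, h2, h4⟩
  · rintro ⟨h3, h1, h2, h4⟩; exact ⟨h1, h2, (sg_iff h1).1.1 h3, h4⟩

theorem num_false {κ X : ℝ} (hX : 0 < X) (A : Set ℕ) :
    num κ X (fun c d => Disc c d < 0 ∧ ratio c d ∈ A) = Pool.Agent.U73.LC.nc κ X false A := by
  rw [num_eq hX]
  unfold Pool.Agent.U73.LC.nc
  apply Pool.Agent.U73.LR.cnt_congr
  intro a b
  constructor
  · rintro ⟨h1, h2, h3, h4⟩; exact ⟨(sg_iff h1).2.2 h3, h1, h2, h4⟩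
  · rintro ⟨h3, h1, h2, h4⟩; exact ⟨h1, h2, (sg_iff h1).2.1 h3, h4⟩

theorem num_univ {κ X : ℝ} (hX : 0 < X) : ((Curves κ X).ncard : ℝ) =
    Pool.Agent.U73.LC.nc κ X true Set.univ + Pool.Agent.U73.LC.nc κ X false Set.univ := by
  have h : ((Curves κ X).ncard : ℝ) = num κ X (fun _ _ => True) := by
    unfold num
    congr 2
    ext q
    simp
  rw [h, ← num_true hX, ← num_false hX, num_eq hX, num_eq hX, num_eq hX]
  apply Pool.Agent.U73.LR.cnt_add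
  · intro a b
    constructor
    · rintro ⟨h1, h2, -⟩
      have h3 : Disc a b ≠ 0 := (Pool.Agent.U73.LS.fact.1 a b h1).2.1
      rcases lt_or_gt_of_ne h3 with h4 | h4
      · right; exact ⟨h1, h2, h4, trivial⟩
      · left; exact ⟨h1, h2, h4, trivial⟩
    · rintro (⟨h1, h2, -⟩ | ⟨h1, h2, -⟩)
      · exact ⟨h1, h2, trivial⟩
      · exact ⟨h1, h2, trivial⟩
  · rintro a b ⟨⟨-, -, h1, -⟩, ⟨-, -, h2, -⟩⟩
    omega

/-- **Theorem.** -/
theorem result :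
    -- each curve is counted once
    (∀ c d c' d' : ℤ, Semistable c d → Semistable c' d' → ∀ u : ℚ, u ≠ 0 → (c' : ℚ) = u ^ 4 * c →
      (d' : ℚ) = u ^ 6 * d → c' = c ∧ d' = d) ∧
    -- `Disc` is the discriminant and `|Δ| = r N`
    (∀ W : WeierstrassCurve ℤ, Disc W.c₄ W.c₆ = W.Δ) ∧
    (∀ c d : ℤ, Semistable c d → (Disc c d).natAbs = ratio c d * Cond c d) ∧
    -- the constant and the law
    ∃ (ν : ℕ → ℝ) (Q : ℝ), 0 < Q ∧ (∀ m, 0 ≤ ν m) ∧ ν 0 = 0 ∧ HasSum ν 1 ∧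
    Tendsto (fun z => ∏ p ∈ Nat.primesBelow z,
      (1 + (((p : ℝ) - 1) / ((p : ℝ) ^ (1 / 6 : ℝ) - 1) - 1) / ((p : ℝ) * ((p : ℝ) + 1)))) atTop (𝓝 Q) ∧
    Tendsto (fun z => ∏ p ∈ Nat.primesBelow z, (1 - 1 / ((p : ℝ) * ((p : ℝ) + 1)))) atTop (𝓝 (ν 1 * Q)) ∧
    (∀ n : ℕ, 1 ≤ n → ν n = ν 1 * (n : ℝ) ^ (-(1 / 6) : ℝ) *
      ∏ p ∈ n.primeFactors, (((p : ℝ) - 1) / ((p : ℝ) ^ 2 + p - 1))) ∧
    ∀ κ : ℝ, 1 < κ → κ < 5 / 4 →
      -- the number of the curves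
      Tendsto (fun X => ((Curves κ X).ncard : ℝ) / X ^ (5 / 6 : ℝ)) atTop
        (𝓝 ((3 + √3) / (5 * Real.pi ^ 2) * beta * Q)) ∧
      -- total variation convergence, and the sign of the discriminant
      (∀ ε : ℝ, 0 < ε → ∃ X₀ : ℝ, ∀ X : ℝ, X₀ ≤ X → (Curves κ X).Finite ∧ (Curves κ X).Nonempty ∧
        ∀ A : Set ℕ,
          |num κ X (fun c d => 0 < Disc c d ∧ ratio c d ∈ A) / (Curves κ X).ncard -
            1 / (1 + √3) * meas ν A| ≤ ε ∧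
          |num κ X (fun c d => Disc c d < 0 ∧ ratio c d ∈ A) / (Curves κ X).ncard -
            √3 / (1 + √3) * meas ν A| ≤ ε) ∧
      -- the uniform tail
      (∀ ε : ℝ, 0 < ε → ∃ C : ℝ, 0 < C ∧ ∀ X K : ℝ, 1 ≤ X → 1 ≤ K →
        num κ X (fun c d => K ≤ ratio c d) ≤
          C * (X ^ (5 / 6 : ℝ) * K ^ (-(1 / 6) + ε) + X ^ (2 * κ / 3 + ε))) ∧
      -- the exceptions to `|Δ| ≤ N ^ (1 + δ)`
      (∀ δ : ℝ, 0 < δ → ∃ η C : ℝ, 0 < η ∧ 0 < C ∧ ∀ X : ℝ, 1 ≤ X →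
        num κ X (fun c d => (Cond c d : ℝ) ^ (1 + δ) < |((Disc c d : ℤ) : ℝ)|) ≤
          C * X ^ (5 / 6 - η)) := by
  obtain ⟨ν, Q, h1, h2, h3, h4, h5, h6, h7, h8⟩ := Pool.Agent.U73.LC.law_all
  refine ⟨Pool.Agent.U73.LS.iso, ?_, fun c d h => (Pool.Agent.U73.LS.fact.1 c d h).2.2.1, ν, Q, h1, h2, h3,
    h4, h5, h6, h7, fun κ hκ hκ2 => ?_⟩
  · intro W
    unfold Disc
    rw [← W.c_relation]
    exact Int.mul_ediv_cancel_left _ (by norm_num)
  obtain ⟨k1, k2⟩ := h8 κ hκ hκ2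
  refine ⟨?_, ?_, ?_, ?_⟩
  · have q1 := (k1 true).add (k1 false)
    have e : Pool.Agent.U73.LC.cst true * Q + Pool.Agent.U73.LC.cst false * Q =
        (3 + √3) / (5 * Real.pi ^ 2) * beta * Q := by
      unfold Pool.Agent.U73.LC.cst beta Pool.Agent.U73.LC.Bc
      ring
    rw [e] at q1
    refine q1.congr' ?_
    filter_upwards [eventually_gt_atTop (0 : ℝ)] with X hX
    rw [num_univ hX, add_div]
  · intro ε hε
    obtain ⟨X₀, hX₀⟩ := k2 ε hε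
    refine ⟨max X₀ 1, fun X hX => ?_⟩
    have hX0 : 0 < X := by
      have := (le_max_right X₀ 1).trans hX
      linarith
    obtain ⟨q1, q2⟩ := hX₀ X ((le_max_left _ _).trans hX)
    rw [← num_univ hX0] at q1 q2
    refine ⟨curves_finite hX0, ?_, fun A => ⟨?_, ?_⟩⟩
    · exact Set.nonempty_of_ncard_ne_zero (by
        intro h0
        rw [h0] at q1
        simp at q1)
    · have := q2 true A
      rw [num_true hX0]
      exact this
    · have := q2 false A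
      rw [num_false hX0]
      exact this
  · intro ε hε
    obtain ⟨C, hC, h⟩ := Pool.Agent.U73.LC.tn κ ε hκ hκ2 hε
    refine ⟨C, hC, fun X K hX hK => ?_⟩
    rw [num_eq (by linarith : 0 < X)]
    exact h X K hX hK
  · intro δ hδ
    obtain ⟨η, C, hη, hC, h⟩ := Pool.Agent.U73.LC.exc Pool.Agent.U73.LC.tn hκ hκ2 hδ
    refine ⟨η, C, hη, hC, fun X hX => ?_⟩
    rw [num_eq (by linarith : 0 < X)]
    exact h X hX

end Pool.Agent.Results.MP_d8bd92_nt.SemistableByConductor
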