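import Mathlib
import Pool.Agent.U73.LS.All

set_option autoImplicit false

/-!
# MP_d8bd92_nt: the law of `|Δ| / N` over all semistable elliptic curves over `ℚ`

Let `Δ` be the minimal discriminant and `N` the conductor of a semistable elliptic curve over `ℚ`, so that `r = |Δ| / N` is
a positive integer. We order the curves by height: `|c₄| ≤ X²`, `|c₆| ≤ X³`. As `X → ∞`,

* the number of the curves is asymptotic to `X⁵ / (144 π²)`;
* `r` has a limiting distribution `μ` on the positive integers, in total variation, with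
  `μ(n divides r) = 1 / (n ∏_{p | n} (p + 1))` for every `n`; thus the exponents of the primes are independent and
  `μ(p ^ g divides r) = 1 / (p ^ g (p + 1))` for all primes `p`, also for `p = 2, 3`;
* the mean of `h(r)` over the curves tends to the mean under `μ` for every `h` with `|h(m)| ≤ C m ^ s`, `s < 1/6`;
* the mean of `log |Δ| - log N` tends to `-ζ'(2) / ζ(2) = 0.5699...`.

The proof: Kraus's conditions on `(c₄, c₆)` in the semistable case (`U73/LS/Kr.lean`), local densities from the parametrization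
`(t², t³)` of the cuspidal cubic, and bounds for the large primes from the library.

The lemmas of the project were proved by helper978, helper789, helper399, helper913, helper358, helper979, helper278,
helper261, helper292 and helper678 (see `U73/LS/All.lean`).
-/

namespace Pool.Agent.Results.MP_d8bd92_nt.SemistableRatioLaw

open Filter Topology

/-- `(c, d)` are the invariants `(c₄, c₆)` of a semistable elliptic curve over `ℚ`: of an integral Weierstrass equation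
whose discriminant `Δ` is nonzero and prime to `c₄` (so that it is a global minimal model) -/
def Semistable (c d : ℤ) : Prop :=
  ∃ W : WeierstrassCurve ℤ, W.Δ ≠ 0 ∧ IsCoprime W.c₄ W.Δ ∧ W.c₄ = c ∧ W.c₆ = d

/-- the discriminant `Δ = (c₄³ - c₆²) / 1728` -/
def Disc (c d : ℤ) : ℤ := (c ^ 3 - d ^ 2) / 1728

/-- the conductor `N` of a semistable curve: the product of the primes dividing `Δ` -/
def Cond (c d : ℤ) : ℕ := ∏ p ∈ (Disc c d).natAbs.primeFactors, p

/-- the ratio `|Δ| / N` -/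
def ratio (c d : ℤ) : ℕ := (Disc c d).natAbs / Cond c d

/-- the semistable curves with `|c₄| ≤ X²`, `|c₆| ≤ X³` and ratio in `A` -/
def Curves (X : ℝ) (A : Set ℕ) : Set (ℤ × ℤ) :=
  {q | Semistable q.1 q.2 ∧ |(q.1 : ℝ)| ≤ X ^ 2 ∧ |(q.2 : ℝ)| ≤ X ^ 3 ∧ ratio q.1 q.2 ∈ A}

/-- the proportion of the curves of height at most `X` with ratio in `A` -/
noncomputable def share (X : ℝ) (A : Set ℕ) : ℝ :=
  ((Curves X A).ncard : ℝ) / ((Curves X Set.univ).ncard : ℝ)

/-- the mean of `f (c₄, c₆)` over the curves of height at most `X` -/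
noncomputable def mean (X : ℝ) (f : ℤ → ℤ → ℝ) : ℝ :=
  (∑ᶠ q ∈ Curves X Set.univ, f q.1 q.2) / ((Curves X Set.univ).ncard : ℝ)

/-- the measure of `A` -/
noncomputable def meas (μ : ℕ → ℝ) (A : Set ℕ) : ℝ := ∑' m, A.indicator μ m

theorem curves_ncard (X : ℝ) (A : Set ℕ) :
    ((Curves X A).ncard : ℝ) = Pool.Agent.U73.LR.cnt X (fun a b => Pool.Agent.U73.LS.Sm a b ∧
      Pool.Agent.U73.LS.rs a b ∈ A) := by
  classical
  rw [Pool.Agent.U73.LR.cnt_def X (fun a b => Pool.Agent.U73.LS.Sm a b ∧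
      Pool.Agent.U73.LS.rs a b ∈ A), ← Set.ncard_coe_finset]
  congr 2
  ext q
  rw [Finset.mem_coe, Finset.mem_filter, Pool.Agent.U73.LR.mem_box]
  constructor
  · rintro ⟨h1, h2, h3, h4⟩; exact ⟨⟨h2, h3⟩, h1, h4⟩
  · rintro ⟨⟨h2, h3⟩, h1, h4⟩; exact ⟨h1, h2, h3, h4⟩

theorem curves_univ (X : ℝ) :
    ((Curves X Set.univ).ncard : ℝ) = Pool.Agent.U73.LR.cnt X Pool.Agent.U73.LS.Sm := by
  rw [curves_ncard]
  exact Pool.Agent.U73.LR.cnt_congr X fun a b => by simp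

theorem curves_coe (X : ℝ) [DecidablePred fun q : ℤ × ℤ => Pool.Agent.U73.LS.Sm q.1 q.2] :
    Curves X Set.univ = ↑((Pool.Agent.U73.LR.box X).filter
      (fun q => Pool.Agent.U73.LS.Sm q.1 q.2)) := by
  ext q
  rw [Finset.mem_coe, Finset.mem_filter, Pool.Agent.U73.LR.mem_box]
  constructor
  · rintro ⟨h1, h2, h3, h4⟩; exact ⟨⟨h2, h3⟩, h1⟩
  · rintro ⟨⟨h2, h3⟩, h1⟩; exact ⟨h1, h2, h3, trivial⟩

theorem mean_eq (X : ℝ) (h : ℕ → ℝ) :
    mean X (fun c d => h (ratio c d)) =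
      Pool.Agent.U73.LS.smS X h / Pool.Agent.U73.LR.cnt X Pool.Agent.U73.LS.Sm := by
  classical
  unfold mean
  rw [curves_univ]
  congr 1
  rw [curves_coe, finsum_mem_coe_finset]
  rfl

/-- **Theorem.** -/
theorem result :
    -- each curve is counted once
    (∀ c d c' d' : ℤ, Semistable c d → Semistable c' d' → ∀ u : ℚ, u ≠ 0 → (c' : ℚ) = u ^ 4 * c →
      (d' : ℚ) = u ^ 6 * d → c' = c ∧ d' = d) ∧
    -- `|Δ| = r N`
    (∀ W : WeierstrassCurve ℤ, Disc W.c₄ W.c₆ = W.Δ) ∧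
    (∀ c d : ℤ, Semistable c d → (Disc c d).natAbs = ratio c d * Cond c d) ∧
    -- the number of the curves
    Tendsto (fun X : ℝ => ((Curves X Set.univ).ncard : ℝ) / X ^ 5) atTop
      (𝓝 (1 / (144 * Real.pi ^ 2))) ∧
    ∃ μ : ℕ → ℝ, (∀ m, 0 ≤ μ m) ∧ μ 0 = 0 ∧ HasSum μ 1 ∧
    -- convergence in total variation
    (∀ ε : ℝ, 0 < ε → ∃ X₀ : ℝ, ∀ X : ℝ, X₀ ≤ X → (Curves X Set.univ).Finite ∧
      (Curves X Set.univ).Nonempty ∧ ∀ A : Set ℕ, |share X A - meas μ A| ≤ ε) ∧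
    -- the law
    (∀ n : ℕ, 1 ≤ n → meas μ {m | n ∣ m} = 1 / ((n : ℝ) * ∏ p ∈ n.primeFactors, ((p : ℝ) + 1))) ∧
    Tendsto (fun z => ∏ p ∈ Nat.primesBelow z, (1 - 1 / ((p : ℝ) * ((p : ℝ) + 1)))) atTop (𝓝 (μ 1)) ∧
    (∀ n : ℕ, 1 ≤ n →
      μ n = μ 1 / n * ∏ p ∈ n.primeFactors, (((p : ℝ) - 1) / ((p : ℝ) ^ 2 + p - 1))) ∧
    (∀ K : ℕ, 1 ≤ K → 1 / (6 * (K : ℝ)) ≤ meas μ {m | K ≤ m}) ∧
    (∀ ε : ℝ, 0 < ε → ∃ C : ℝ, ∀ K : ℕ, 1 ≤ K → meas μ {m | K ≤ m} ≤ C * (K : ℝ) ^ (-1 + ε)) ∧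
    -- means
    (∀ (s C : ℝ) (h : ℕ → ℝ), 0 ≤ s → s < 1 / 6 → (∀ m, 1 ≤ m → |h m| ≤ C * (m : ℝ) ^ s) →
      Summable (fun m => h m * μ m) ∧
        Tendsto (fun X => mean X fun c d => h (ratio c d)) atTop (𝓝 (∑' m, h m * μ m))) ∧
    (∃ L : ℝ, (L : ℂ) = - deriv riemannZeta 2 / riemannZeta 2 ∧
      Tendsto (fun X => mean X fun c d => Real.log |((Disc c d : ℤ) : ℝ)| - Real.log (Cond c d))
        atTop (𝓝 L)) := by
  classical
  have hF := Pool.Agent.U73.LS.fact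
  have hrel : ∀ c d : ℤ, Semistable c d → 1728 * Disc c d = c ^ 3 - d ^ 2 ∧ Disc c d ≠ 0 ∧
      (Disc c d).natAbs = ratio c d * Cond c d ∧ 0 < ratio c d := fun c d h => hF.1 c d h
  obtain ⟨hcount, μ, h1, h2, h3, h4, h5, h6, h7, h8, h9, h10, h11⟩ := Pool.Agent.U73.LS.all
  have hmean : ∀ (s C : ℝ) (h : ℕ → ℝ), 0 ≤ s → s < 1 / 6 → (∀ m, 1 ≤ m → |h m| ≤ C * (m : ℝ) ^ s) →
      Summable (fun m => h m * μ m) ∧
        Tendsto (fun X => mean X fun c d => h (ratio c d)) atTop (𝓝 (∑' m, h m * μ m)) := by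
    intro s C h hs0 hs hh
    obtain ⟨k1, k2⟩ := h10 s C h hs0 hs hh
    refine ⟨k1, k2.congr fun X => ?_⟩
    rw [mean_eq]
  refine ⟨Pool.Agent.U73.LS.iso, ?_, fun c d h => (hrel c d h).2.2.1, ?_, μ, h1, h2, h3, ?_, h5, h6,
    h7, h8, h9, hmean, _, h11, ?_⟩
  · intro W
    unfold Disc
    rw [← W.c_relation]
    exact Int.mul_ediv_cancel_left _ (by norm_num)
  · refine hcount.congr fun X => ?_
    rw [curves_univ]
  · intro ε hε
    obtain ⟨X₀, hX₀⟩ := h4 ε hε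
    refine ⟨X₀, fun X hX => ?_⟩
    obtain ⟨k1, k2⟩ := hX₀ X hX
    refine ⟨by rw [curves_coe]; exact Finset.finite_toSet _, ?_, fun A => ?_⟩
    · rw [← curves_univ] at k1
      exact Set.nonempty_of_ncard_ne_zero (by
        intro h0
        rw [h0] at k1
        simp at k1)
    · unfold share meas
      rw [curves_ncard X A, curves_univ]
      exact k2 A
  · have k := (hmean (1 / 10) 10 (fun m : ℕ => Real.log m) (by norm_num) (by norm_num) fun m hm => by
      have hm1 : (1 : ℝ) ≤ m := by exact_mod_cast hm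
      rw [abs_of_nonneg (Real.log_nonneg hm1)]
      have := Real.log_le_rpow_div (by linarith : (0 : ℝ) ≤ m) (by norm_num : (0 : ℝ) < 1 / 10)
      calc Real.log m ≤ (m : ℝ) ^ (1 / 10 : ℝ) / (1 / 10) := this
        _ = 10 * (m : ℝ) ^ (1 / 10 : ℝ) := by ring).2
    refine k.congr fun X => ?_
    unfold mean
    congr 1
    rw [curves_coe, finsum_mem_coe_finset, finsum_mem_coe_finset]
    refine Finset.sum_congr rfl fun q hq => ?_
    rw [Finset.mem_filter] at hq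
    obtain ⟨-, e2, e3, e4⟩ := hrel q.1 q.2 hq.2
    have e5 : 0 < Cond q.1 q.2 := by
      rw [Nat.pos_iff_ne_zero]
      intro h0
      rw [h0, mul_zero] at e3
      exact e2 (Int.natAbs_eq_zero.1 e3)
    have e6 : |((Disc q.1 q.2 : ℤ) : ℝ)| = (ratio q.1 q.2 : ℝ) * (Cond q.1 q.2 : ℝ) := by
      rw [← Int.cast_abs, Int.abs_eq_natAbs, e3]; push_cast; ring
    have e7 : (ratio q.1 q.2 : ℝ) ≠ 0 := by exact_mod_cast e4.ne'
    have e8 : (Cond q.1 q.2 : ℝ) ≠ 0 := by exact_mod_cast e5.ne'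
    show Real.log (ratio q.1 q.2 : ℝ) = Real.log |((Disc q.1 q.2 : ℤ) : ℝ)| - Real.log (Cond q.1 q.2 : ℝ)
    rw [e6, Real.log_mul e7 e8]
    ring

end Pool.Agent.Results.MP_d8bd92_nt.SemistableRatioLaw
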