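import Mathlib
import Pool.Agent.U64.SZ.Pos

/-!
# The exponent `6` fails in Szpiro's conjecture near every real `j`-invariant

For every real number `j₀` and every `δ > 0` there is `c > 0` such that infinitely many semistable
elliptic curves over `ℚ` (with a rational point of order two) have `|j - j₀| < δ` and minimal
discriminant `|Δ| ≥ c N ^ 6 (log |Δ|) ^ 6`. So the exponent `6 + ε` of Szpiro's conjecture cannot be
replaced by `6`, not even with a power `< 6` of `log |Δ|` as an additional factor, for the curves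
whose real `j`-invariant lies in a given interval.

Proof. For `j₀ ≤ 1728`: `A + d √-7 = (1 - 3 √-7) (1 + 84 √-7) ^ n`, `B = 49393 ^ n`,
`y² + xy = x³ + ((A - 1) / 4) x² + B x` with `Δ = -7 B² d²`. By a `3`-adic lifting
`3 ^ (m + 1) ∣ d` for all `n` in a class modulo `3 ^ m`; the argument of `A + d √-7`, which determines
`j`, moves by a rotation with angle `3 ^ m arg (1 + 84 √-7)` on this class, and for infinitely many
`m` boundedly many steps of this rotation suffice to come close to every angle. For `j₀ ≥ 1728`: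
`x = 7 ^ a`, `y = 13 ^ b`, `Δ = (x y (16 x - y))²`, `3 ^ (m + 1) ∣ 16 x - y` for `(a, b)` in a coset of
a lattice of index `3 ^ m`; these lattices are nested, hence for infinitely many `m` there is a point
`(a, b)` of size `O(3 ^ m)` in the coset with `16 x / y` close to a given real number.
-/

set_option autoImplicit false

namespace Pool.Agent.Results.MP_d8bd92_nt.SzpiroNearEveryJ

/-- `W` is a global minimal Weierstrass equation: `Δ ≠ 0`, and `|Δ|` is smallest among all integral
Weierstrass equations that are obtained from `W` by a change of variables over `ℚ` -/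
def IsGlobalMinimal (W : WeierstrassCurve ℤ) : Prop :=
  W.Δ ≠ 0 ∧ ∀ W' : WeierstrassCurve ℤ,
    (∃ C : WeierstrassCurve.VariableChange ℚ,
      C • W.map (Int.castRingHom ℚ) = W'.map (Int.castRingHom ℚ)) → |W.Δ| ≤ |W'.Δ|

/-- the product of the primes dividing `Δ`; it is the conductor if `W` is a global minimal equation
and `gcd (c₄, Δ) = 1`, that is, if the curve is semistable -/
def conductor (W : WeierstrassCurve ℤ) : ℕ := ∏ p ∈ W.Δ.natAbs.primeFactors, p

/-- the `j`-invariant -/
noncomputable def jInvariant (W : WeierstrassCurve ℤ) : ℚ := (W.c₄ : ℚ) ^ 3 / W.Δ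

/-- there is a rational point of order two: `4x³ + b₂x² + 2b₄x + b₆` has a rational root -/
def HasRationalTwoTorsion (W : WeierstrassCurve ℤ) : Prop :=
  ∃ r : ℚ, 4 * r ^ 3 + W.b₂ * r ^ 2 + 2 * W.b₄ * r + W.b₆ = 0

theorem result (j₀ δ : ℝ) (hδ : 0 < δ) :
    ∃ c : ℝ, 0 < c ∧ ∀ X : ℝ, ∃ W : WeierstrassCurve ℤ,
      IsGlobalMinimal W ∧ IsCoprime W.c₄ W.Δ ∧ HasRationalTwoTorsion W ∧
      |(jInvariant W : ℝ) - j₀| < δ ∧ X ≤ |(W.Δ : ℝ)| ∧
      c * (conductor W : ℝ) ^ 6 * Real.log |(W.Δ : ℝ)| ^ 6 ≤ |(W.Δ : ℝ)| := by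
  obtain ⟨c, hc, h⟩ := Pool.Agent.U64.SZ.main j₀ hδ
  refine ⟨c, hc, fun X => ?_⟩
  obtain ⟨W, h1, h2, h3, h4, h5, h6⟩ := h X
  refine ⟨W, ⟨h1, Pool.Agent.W270.Szp.minimal_of_coprime h2⟩, h2, ⟨0, by simp [h3]⟩, ?_, h5, ?_⟩
  · have e : ((jInvariant W : ℚ) : ℝ) = (W.c₄ : ℝ) ^ 3 / W.Δ := by
      unfold jInvariant; push_cast; rfl
    rw [e]; exact h4
  · rw [mul_assoc]; exact h6

end Pool.Agent.Results.MP_d8bd92_nt.SzpiroNearEveryJ
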